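import Pool.Agent.D0H61.AB.Stm2

/-! # 18 BIN: upper bound for the factorial, lower bound for the binomial coefficient -/

set_option autoImplicit false

namespace Pool.Agent.D0H42.AB

open Pool.Agent.D0H61.AB

lemma fact_le (m : ℕ) (hm : 1 ≤ m) :
    (m.factorial : ℝ) ≤ Real.exp 1 * m * ((m : ℝ) / Real.exp 1) ^ m := by
  induction m, hm using Nat.le_induction with
  | base =>
    have he : Real.exp 1 ≠ 0 := (Real.exp_pos 1).ne'
    simp only [Nat.factorial_one, Nat.cast_one, mul_one, pow_one]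
    rw [mul_one_div, div_self he]
  | succ m hm ih =>
    have he : 0 < Real.exp 1 := Real.exp_pos 1
    have hm0 : (0 : ℝ) < m := by exact_mod_cast hm
    have hm1 : (0 : ℝ) < (m : ℝ) + 1 := by linarith
    -- `(m / (m+1)) ^ (m+1) ≤ exp (-1)`
    have h1 : (m : ℝ) / (m + 1) ≤ Real.exp (-(1 / ((m : ℝ) + 1))) := by
      have := Real.add_one_le_exp (-(1 / ((m : ℝ) + 1)))
      have h2 : -(1 / ((m : ℝ) + 1)) + 1 = (m : ℝ) / (m + 1) := by
        field_simp
        ring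
      linarith
    have h3 : ((m : ℝ) / (m + 1)) ^ (m + 1) ≤ Real.exp (-1) := by
      have h4 := pow_le_pow_left₀ (by positivity) h1 (m + 1)
      rw [← Real.exp_nat_mul] at h4
      have h5 : ((m + 1 : ℕ) : ℝ) * (-(1 / ((m : ℝ) + 1))) = -1 := by
        push_cast
        field_simp
      rwa [h5] at h4
    rw [Real.exp_neg, div_pow, div_le_iff₀ (by positivity)] at h3
    -- `m ^ (m+1) ≤ e⁻¹ (m+1) ^ (m+1)`
    rw [Nat.factorial_succ]
    push_cast
    have h6 : ((m : ℝ) + 1) * (m.factorial : ℝ) ≤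
        ((m : ℝ) + 1) * (Real.exp 1 * m * ((m : ℝ) / Real.exp 1) ^ m) :=
      mul_le_mul_of_nonneg_left ih hm1.le
    refine h6.trans ?_
    have h7 : ((m : ℝ) + 1) * (Real.exp 1 * m * ((m : ℝ) / Real.exp 1) ^ m)
        = Real.exp 1 * (m + 1) * ((m : ℝ) ^ (m + 1) / Real.exp 1 ^ m) := by
      rw [div_pow, pow_succ]
      ring
    rw [h7]
    refine mul_le_mul_of_nonneg_left ?_ (by positivity)
    rw [div_pow, div_le_div_iff₀ (by positivity) (by positivity)]
    calc (m : ℝ) ^ (m + 1) * Real.exp 1 ^ (m + 1)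
        ≤ ((Real.exp 1)⁻¹ * ((m : ℝ) + 1) ^ (m + 1)) * Real.exp 1 ^ (m + 1) :=
          mul_le_mul_of_nonneg_right h3 (by positivity)
      _ = ((m : ℝ) + 1) ^ (m + 1) * Real.exp 1 ^ m := by
          rw [pow_succ (Real.exp 1) m]
          field_simp

/-- **18 BIN** -/
theorem t_BIN : S_BIN := by
  refine ⟨fact_le, ?_⟩
  intro q m hm hmq
  have he : 0 < Real.exp 1 := Real.exp_pos 1
  have hm0 : (0 : ℝ) < m := by exact_mod_cast hm
  have hf := fact_le m hm
  have hqm : (0 : ℝ) ≤ (q : ℝ) - m := by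
    have : (m : ℝ) ≤ q := by exact_mod_cast hmq
    linarith
  have h1 : ((q : ℝ) - m) ^ m ≤ (m.factorial : ℝ) * (q.choose m : ℝ) := by
    have h2 : (q - m) ^ m ≤ q.descFactorial m :=
      (Nat.pow_le_pow_left (by omega) m).trans (Nat.pow_sub_le_descFactorial q m)
    rw [Nat.descFactorial_eq_factorial_mul_choose] at h2
    have h3 : (((q - m) ^ m : ℕ) : ℝ) ≤ ((m.factorial * q.choose m : ℕ) : ℝ) := by exact_mod_cast h2
    rw [Nat.cast_pow, Nat.cast_sub hmq, Nat.cast_mul] at h3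
    exact h3
  have h4 : ((q : ℝ) - m) ^ m ≤
      (Real.exp 1 * m * ((m : ℝ) / Real.exp 1) ^ m) * (q.choose m : ℝ) :=
    h1.trans (mul_le_mul_of_nonneg_right hf (Nat.cast_nonneg _))
  have h5 : Real.exp (m : ℝ) = Real.exp 1 ^ m := by
    rw [← Real.exp_nat_mul, mul_one]
  rw [div_le_iff₀ (by positivity), div_pow, h5]
  have h6 : ((q : ℝ) - m) ^ m * (Real.exp 1 ^ m / (m : ℝ) ^ m) ≤
      (Real.exp 1 * m * ((m : ℝ) / Real.exp 1) ^ m) * (q.choose m : ℝ) * (Real.exp 1 ^ m / (m : ℝ) ^ m) :=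
    mul_le_mul_of_nonneg_right h4 (by positivity)
  have h7 : (Real.exp 1 * m * ((m : ℝ) / Real.exp 1) ^ m) * (q.choose m : ℝ) * (Real.exp 1 ^ m / (m : ℝ) ^ m)
      = (q.choose m : ℝ) * (Real.exp 1 * m) := by
    rw [div_pow]
    field_simp
  have h8 : ((q : ℝ) - m) ^ m / (m : ℝ) ^ m * Real.exp 1 ^ m =
      ((q : ℝ) - m) ^ m * (Real.exp 1 ^ m / (m : ℝ) ^ m) := by ring
  rw [h8]
  exact h6.trans h7.le

end Pool.Agent.D0H42.AB
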