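import Pool.Agent.D0H61.AB.Stm

/-!
# M3: the product of `1 + 1 / p` over the primes up to `N` is at most `C (log N) ^ 4` (statement in `D0H61.AB.Stm`)

Dyadic blocks: `∑ 1 / p ≤ 4 / j` over the primes in `(2 ^ j, 2 ^ (j + 1)]` by Chebyshev's bound (Mathlib).
-/

set_option autoImplicit false

open Pool.Agent.D0H61.AB

namespace Pool.Agent.D0H42.AB

open Finset

/-- the primes of a dyadic block -/
theorem block (j : ℕ) (hj : 1 ≤ j) :
    ∑ p ∈ (Ioc (2 ^ j) (2 ^ (j + 1))).filter Nat.Prime, 1 / (p : ℝ) ≤ 4 / j := by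
  have hL : 0 < Real.log 2 := Real.log_pos one_lt_two
  have hj0 : (0 : ℝ) < j := by exact_mod_cast hj
  have h2j : (0 : ℝ) < 2 ^ j := by positivity
  have h1 : ∑ p ∈ (Ioc (2 ^ j) (2 ^ (j + 1))).filter Nat.Prime, 1 / (p : ℝ) ≤
      ∑ p ∈ (Ioc (2 ^ j) (2 ^ (j + 1))).filter Nat.Prime, Real.log p / (2 ^ j * (j * Real.log 2)) := by
    refine sum_le_sum fun p hp => ?_
    rw [mem_filter, mem_Ioc] at hp
    obtain ⟨⟨hp1, -⟩, -⟩ := hp
    have hp1' : (2 : ℝ) ^ j < p := by exact_mod_cast hp1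
    have hlog : j * Real.log 2 ≤ Real.log p := by
      rw [← Real.log_pow]
      exact Real.log_le_log h2j hp1'.le
    rw [div_le_div_iff₀ (by linarith) (by positivity), one_mul]
    calc (2 : ℝ) ^ j * (j * Real.log 2) = (j * Real.log 2) * 2 ^ j := by ring
      _ ≤ Real.log p * p := mul_le_mul hlog hp1'.le h2j.le (le_trans (by positivity) hlog)
  have h2 : ∑ p ∈ (Ioc (2 ^ j) (2 ^ (j + 1))).filter Nat.Prime, Real.log p ≤ Real.log 4 * 2 ^ (j + 1) := by
    have h3 := Chebyshev.theta_le_log4_mul_x (x := ((2 : ℝ) ^ (j + 1))) (by positivity)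
    refine le_trans ?_ h3
    have hfl : ⌊((2 : ℝ) ^ (j + 1))⌋₊ = 2 ^ (j + 1) := by
      have : ((2 : ℝ) ^ (j + 1)) = ((2 ^ (j + 1) : ℕ) : ℝ) := by push_cast; rfl
      rw [this, Nat.floor_natCast]
    unfold Chebyshev.theta
    rw [hfl]
    refine sum_le_sum_of_subset_of_nonneg (fun p hp => ?_) (fun p _ _ => Real.log_natCast_nonneg p)
    rw [mem_filter, mem_Ioc] at hp ⊢
    exact ⟨⟨lt_of_le_of_lt (Nat.zero_le _) hp.1.1, hp.1.2⟩, hp.2⟩
  have h4 : Real.log 4 = 2 * Real.log 2 := by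
    rw [show (4 : ℝ) = 2 ^ 2 by norm_num, Real.log_pow]
    norm_num
  refine h1.trans ?_
  rw [← sum_div, div_le_div_iff₀ (by positivity) hj0]
  calc (∑ p ∈ (Ioc (2 ^ j) (2 ^ (j + 1))).filter Nat.Prime, Real.log p) * j ≤ (Real.log 4 * 2 ^ (j + 1)) * j :=
        mul_le_mul_of_nonneg_right h2 hj0.le
    _ = 4 * (2 ^ j * (j * Real.log 2)) := by rw [h4, pow_succ]; ring

/-- the product up to a power of two -/
theorem prod_pow (J : ℕ) : ∏ p ∈ (Icc 1 (2 ^ (J + 1))).filter Nat.Prime, (1 + 1 / (p : ℝ)) ≤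
    3 / 2 * Real.exp (4 * ∑ j ∈ range J, ((j : ℝ) + 1)⁻¹) := by
  induction J with
  | zero =>
    have h : (Icc 1 (2 ^ (0 + 1))).filter Nat.Prime = {2} := by decide
    rw [h, prod_singleton]
    norm_num
  | succ J ih =>
    have hsplit : (Icc 1 (2 ^ (J + 1 + 1))).filter Nat.Prime =
        (Icc 1 (2 ^ (J + 1))).filter Nat.Prime ∪ (Ioc (2 ^ (J + 1)) (2 ^ (J + 1 + 1))).filter Nat.Prime := by
      have hle : 2 ^ (J + 1) ≤ 2 ^ (J + 1 + 1) := Nat.pow_le_pow_right (by norm_num) (by omega)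
      ext p
      rw [mem_union, mem_filter, mem_filter, mem_filter, mem_Icc, mem_Icc, mem_Ioc]
      constructor
      · rintro ⟨⟨h1, h2⟩, h3⟩
        rcases le_or_gt p (2 ^ (J + 1)) with h | h
        · exact Or.inl ⟨⟨h1, h⟩, h3⟩
        · exact Or.inr ⟨⟨h, h2⟩, h3⟩
      · rintro (⟨⟨h1, h2⟩, h3⟩ | ⟨⟨h1, h2⟩, h3⟩)
        · exact ⟨⟨h1, h2.trans hle⟩, h3⟩
        · exact ⟨⟨h3.pos, h2⟩, h3⟩
    have hdisj : Disjoint ((Icc 1 (2 ^ (J + 1))).filter Nat.Prime)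
        ((Ioc (2 ^ (J + 1)) (2 ^ (J + 1 + 1))).filter Nat.Prime) := by
      rw [disjoint_left]
      intro p h1 h2
      rw [mem_filter, mem_Icc] at h1
      rw [mem_filter, mem_Ioc] at h2
      omega
    have hb : ∏ p ∈ (Ioc (2 ^ (J + 1)) (2 ^ (J + 1 + 1))).filter Nat.Prime, (1 + 1 / (p : ℝ)) ≤
        Real.exp (4 * ((J : ℝ) + 1)⁻¹) := by
      have h1 : ∏ p ∈ (Ioc (2 ^ (J + 1)) (2 ^ (J + 1 + 1))).filter Nat.Prime, (1 + 1 / (p : ℝ)) ≤
          ∏ p ∈ (Ioc (2 ^ (J + 1)) (2 ^ (J + 1 + 1))).filter Nat.Prime, Real.exp (1 / (p : ℝ)) := by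
        refine prod_le_prod (fun p _ => by positivity) (fun p _ => ?_)
        have := Real.add_one_le_exp (1 / (p : ℝ))
        linarith
      refine h1.trans ?_
      rw [← Real.exp_sum]
      refine Real.exp_le_exp.2 ((block (J + 1) (by omega)).trans ?_)
      push_cast
      rw [div_eq_mul_inv]
    rw [hsplit, prod_union hdisj, sum_range_succ, mul_add, Real.exp_add, ← mul_assoc]
    exact mul_le_mul ih hb (prod_nonneg fun p _ => by positivity) (by positivity)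

theorem t_M3 : S_M3 := by
  refine ⟨3 / 2 * Real.exp 4 * 2 ^ (4 : ℕ), 4, by positivity, by norm_num, fun N hN => ?_⟩
  set J := Nat.log 2 N with hJ
  have hJ1 : 1 ≤ J := by
    rw [hJ]
    exact Nat.log_pos (by norm_num) hN
  have hJ0 : (0 : ℝ) < J := by exact_mod_cast hJ1
  have hlogN : 0 < Real.log N := Real.log_pos (by exact_mod_cast (by omega : 1 < N))
  have hJN : (J : ℝ) ≤ 2 * Real.log N := by
    have h1 : (2 : ℝ) ^ J ≤ N := by
      exact_mod_cast Nat.pow_log_le_self 2 (by omega)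
    have h2 : (J : ℝ) * Real.log 2 ≤ Real.log N := by
      rw [← Real.log_pow]
      exact Real.log_le_log (by positivity) h1
    have h3 : (1 : ℝ) / 2 ≤ Real.log 2 := by
      have := Real.log_two_gt_d9
      linarith
    nlinarith
  have hmono : ∏ p ∈ (Icc 1 N).filter Nat.Prime, (1 + 1 / (p : ℝ)) ≤
      ∏ p ∈ (Icc 1 (2 ^ (J + 1))).filter Nat.Prime, (1 + 1 / (p : ℝ)) := by
    have hsub : (Icc 1 N).filter Nat.Prime ⊆ (Icc 1 (2 ^ (J + 1))).filter Nat.Prime := by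
      intro p hp
      rw [mem_filter, mem_Icc] at hp ⊢
      exact ⟨⟨hp.1.1, hp.1.2.trans (Nat.lt_pow_succ_log_self (by norm_num) N).le⟩, hp.2⟩
    refine Finset.prod_le_prod_of_subset_of_one_le hsub (fun p _ => by positivity) (fun p _ _ => ?_)
    have : (0 : ℝ) ≤ 1 / (p : ℝ) := by positivity
    linarith
  have hharm : ∑ j ∈ range J, ((j : ℝ) + 1)⁻¹ ≤ 1 + Real.log J := by
    have h := harmonic_le_one_add_log J
    unfold harmonic at h
    push_cast at h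
    simpa using h
  have hexp : Real.exp (4 * ∑ j ∈ range J, ((j : ℝ) + 1)⁻¹) ≤ Real.exp 4 * (J : ℝ) ^ 4 := by
    have h1 : Real.exp (4 + 4 * Real.log J) = Real.exp 4 * (J : ℝ) ^ 4 := by
      rw [Real.exp_add]
      congr 1
      rw [show (4 : ℝ) * Real.log J = Real.log ((J : ℝ) ^ 4) by rw [Real.log_pow]; norm_num,
        Real.exp_log (by positivity)]
    rw [← h1]
    exact Real.exp_le_exp.2 (by linarith)
  have hr : Real.log (N : ℝ) ^ (4 : ℝ) = Real.log (N : ℝ) ^ (4 : ℕ) := by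
    rw [← Real.rpow_natCast]
    norm_num
  rw [hr]
  calc ∏ p ∈ (Icc 1 N).filter Nat.Prime, (1 + 1 / (p : ℝ)) ≤ 3 / 2 * Real.exp (4 * ∑ j ∈ range J, ((j : ℝ) + 1)⁻¹) :=
        hmono.trans (prod_pow J)
    _ ≤ 3 / 2 * (Real.exp 4 * (J : ℝ) ^ 4) := by linarith
    _ ≤ 3 / 2 * (Real.exp 4 * (2 * Real.log N) ^ 4) := by
        have : (J : ℝ) ^ 4 ≤ (2 * Real.log N) ^ 4 := pow_le_pow_left₀ hJ0.le hJN 4
        have he := Real.exp_pos 4
        nlinarith
    _ = 3 / 2 * Real.exp 4 * 2 ^ (4 : ℕ) * Real.log N ^ (4 : ℕ) := by ring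

end Pool.Agent.D0H42.AB
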